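import Pool.Agent.MWPN.Stmts

/-!
# Block MWPN, row GE1: three identities which do not hold, period `n`
-/

set_option autoImplicit false

namespace Pool.Agent.MWPN.H74

open Pool.Agent.Helper14_MV Pool.Agent.Helper2_MV Pool.Agent.MWF Pool.Agent.MWP Pool.Agent.MWPN

theorem mem_ip {n c a : ℕ} (hn : 1 ≤ n) : a ∈ ip n c ↔ a = c := by
  unfold ip
  rw [List.mem_replicate]
  constructor
  · exact fun h => h.2
  · exact fun h => ⟨by omega, h⟩

theorem pair_ip {n c a b : ℕ} (hab : a ≠ b) : ¬ [a, b].Sublist (ip n c) := by
  intro h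
  have h1 : a ∈ ip n c := h.subset (by simp)
  have h2 : b ∈ ip n c := h.subset (by simp)
  unfold ip at h1 h2
  exact hab ((List.eq_of_mem_replicate h1).trans (List.eq_of_mem_replicate h2).symm)

theorem two_ip {n c : ℕ} (hn : 1 ≤ n) : [c, c].Sublist (ip n c) := by
  unfold ip
  have h : [c, c] = List.replicate 2 c := rfl
  rw [h]
  exact (List.replicate_sublist_replicate c).2 (by omega)

theorem mul_app {u v : List ℕ} (hu : Mul u) (hv : Mul v) : Mul (u ++ v) := by
  intro c hc
  rcases List.mem_append.1 hc with h | h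
  · exact (hu c h).trans (List.sublist_append_left _ _)
  · exact (hv c h).trans (List.sublist_append_right _ _)

theorem mul_ip {n c : ℕ} (hn : 1 ≤ n) : Mul (ip n c) := by
  intro a ha
  rw [(mem_ip hn).1 ha]
  exact two_ip hn

theorem count_ip (n c a : ℕ) : (ip n c).count a = if a = c then 2 * n else 0 := by
  unfold ip
  rw [List.count_replicate]
  by_cases h : a = c
  · subst h
    simp
  · rw [if_neg h, if_neg]
    simp [Ne.symm h]

theorem dvd_ip (n c a : ℕ) : n ∣ (ip n c).count a := by
  rw [count_ip]
  split_ifs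
  · exact Dvd.intro_left 2 rfl
  · exact dvd_zero _

theorem ge3 {n : ℕ} {β : FIC} (hB : BtN n β) : ¬ RR β (ip n 0 ++ ip n 1) (ip n 0 ++ ip n 1 ++ ip n 0) :=
  fun h => hB.e0 (RR.append h (RR.refl (2 :: ip n 0)))

theorem zero_mod {n m : ℕ} (h : n ∣ m) : m ≡ 0 [MOD n] := Nat.modEq_zero_iff_dvd.2 h

theorem ge2 {n : ℕ} {β : FIC} (hB : BtN n β) :
    ¬ RR β (ip n 1 ++ ip n 0) (ip n 0 ++ ip n 1 ++ ip n 0) := by
  intro h
  have hn := hB.pos
  apply ge3 hB
  have e0 : (ip n 0).flatMap (fun i => if i = 0 then [1] else [0]) = ip n 1 := by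
    unfold ip
    generalize 2 * n = m
    induction m with
    | zero => rfl
    | succ m ih => rw [List.replicate_succ, List.flatMap_cons, ih]; rfl
  have e1 : (ip n 1).flatMap (fun i => if i = 0 then [1] else [0]) = ip n 0 := by
    unfold ip
    generalize 2 * n = m
    induction m with
    | zero => rfl
    | succ m ih => rw [List.replicate_succ, List.flatMap_cons, ih]; rfl
  have h1 : RR β (ip n 0 ++ ip n 1) (ip n 1 ++ ip n 0 ++ ip n 1) := by
    have := RR.sub (fun i => if i = 0 then [1] else [0]) h
    rw [List.flatMap_append, List.flatMap_append, List.flatMap_append, e0, e1] at this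
    exact this
  have h2 : RR β (ip n 1 ++ ip n 0 ++ ip n 1) (ip n 0 ++ ip n 1 ++ ip n 0) := by
    apply hB.loc
    · exact mul_app (mul_app (mul_ip hn) (mul_ip hn)) (mul_ip hn)
    · exact mul_app (mul_app (mul_ip hn) (mul_ip hn)) (mul_ip hn)
    · intro a
      simp only [List.mem_append, mem_ip hn]
      tauto
    · intro a
      simp only [List.count_append]
      refine (zero_mod ?_).trans (zero_mod ?_).symm
      · repeat' (first | exact dvd_ip _ _ _ | apply dvd_add)
      · repeat' (first | exact dvd_ip _ _ _ | apply dvd_add)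
    · intro a b hab
      simp only [pair_append, pair_ip hab, List.mem_append, mem_ip hn, false_or, or_false]
      constructor
      · rintro (h | h)
        · omega
        · omega
      · rintro (h | h)
        · omega
        · omega
  exact β.trans h1 h2

theorem ge1' {n : ℕ} {β : FIC} (hB : BtN n β) :
    ¬ RR β (ip n 1 ++ ip n 0 ++ 2 :: ip n 0) (ip n 0 ++ ip n 1 ++ ip n 0 ++ 2 :: ip n 0) := by
  intro h
  have hn := hB.pos
  apply ge2 hB
  have f : ∀ c, c ≠ 2 → (ip n c).filter (fun i => decide (i ≠ 2)) = ip n c := by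
    intro c hc
    rw [List.filter_eq_self]
    intro i hi
    rw [(mem_ip hn).1 hi]
    exact decide_eq_true hc
  have h1 : RR β (ip n 1 ++ ip n 0 ++ ip n 0) (ip n 0 ++ ip n 1 ++ ip n 0 ++ ip n 0) := by
    have := RR.filter (fun c => decide (c ≠ 2)) h
    rw [List.filter_append, List.filter_append, List.filter_append, List.filter_append,
      List.filter_append, List.filter_cons_of_neg (by decide), f 0 (by decide), f 1 (by decide)]
      at this
    exact this
  have h2 : RR β (ip n 1 ++ ip n 0) (ip n 1 ++ ip n 0 ++ ip n 0) := by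
    apply hB.loc
    · exact mul_app (mul_ip hn) (mul_ip hn)
    · exact mul_app (mul_app (mul_ip hn) (mul_ip hn)) (mul_ip hn)
    · intro a
      simp only [List.mem_append, mem_ip hn]
      tauto
    · intro a
      simp only [List.count_append]
      refine (zero_mod ?_).trans (zero_mod ?_).symm
      · repeat' (first | exact dvd_ip _ _ _ | apply dvd_add)
      · repeat' (first | exact dvd_ip _ _ _ | apply dvd_add)
    · intro a b hab
      simp only [pair_append, pair_ip hab, List.mem_append, mem_ip hn, false_or, or_false]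
      constructor <;> intro h <;> omega
  have h3 : RR β (ip n 0 ++ ip n 1 ++ ip n 0 ++ ip n 0) (ip n 0 ++ ip n 1 ++ ip n 0) := by
    apply hB.loc
    · exact mul_app (mul_app (mul_app (mul_ip hn) (mul_ip hn)) (mul_ip hn)) (mul_ip hn)
    · exact mul_app (mul_app (mul_ip hn) (mul_ip hn)) (mul_ip hn)
    · intro a
      simp only [List.mem_append, mem_ip hn]
      tauto
    · intro a
      simp only [List.count_append]
      refine (zero_mod ?_).trans (zero_mod ?_).symm
      · repeat' (first | exact dvd_ip _ _ _ | apply dvd_add)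
      · repeat' (first | exact dvd_ip _ _ _ | apply dvd_add)
    · intro a b hab
      simp only [pair_append, pair_ip hab, List.mem_append, mem_ip hn, false_or, or_false]
      constructor <;> intro h <;> omega
  exact β.trans h2 (β.trans h1 h3)

/-- **GE1**. -/
theorem ge1 : Ge1Stmt := fun _ _ hB => ⟨ge1' hB, ge2 hB, ge3 hB⟩

end Pool.Agent.MWPN.H74
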